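import Mathlib

namespace Pool.Agent.Results.MP_2432f5_co.Const

/-- A pattern letter is a constant `Sum.inl a` (a letter of the alphabet) or a variable
`Sum.inr x`.  `w` encounters `p`. -/
def Encounters {A X : Type*} (p : List (A ⊕ X)) (w : List A) : Prop :=
  ∃ h : A ⊕ X → List A, (∀ y, h y ≠ []) ∧ (∀ a, h (Sum.inl a) = [a]) ∧ p.flatMap h <:+: w

/-- `u` is maximal `p`-free. -/
def MaximalFree {A X : Type*} (p : List (A ⊕ X)) (u : List A) : Prop :=
  ¬ Encounters p u ∧ ∀ a b : A, Encounters p (a :: (u ++ [b]))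

theorem result {A X : Type*} [Nontrivial A] (c d : A) (q : List (A ⊕ X)) :
    ¬ Encounters (Sum.inl c :: (q ++ [Sum.inl d])) ([] : List A) ∧
    ∀ u : List A, ¬ MaximalFree (Sum.inl c :: (q ++ [Sum.inl d])) u := by
  refine ⟨?_, ?_⟩
  · rintro ⟨h, h1, h2, h3⟩
    simp [h2] at h3
  · rintro u ⟨h0, h1⟩
    obtain ⟨a, ha⟩ := exists_ne c
    obtain ⟨b, hb⟩ := exists_ne d
    obtain ⟨h, h2, h3, s, t, h4⟩ := h1 a b
    apply h0
    refine ⟨h, h2, h3, ?_⟩
    simp only [List.flatMap_cons, List.flatMap_append, List.flatMap_nil, h3, List.append_nil] at h4 ⊢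
    cases s with
    | nil => simp at h4; exact absurd h4.1.symm ha
    | cons x s =>
      simp only [List.cons_append, List.cons.injEq] at h4
      rcases List.eq_nil_or_concat t with rfl | ⟨t, y, rfl⟩
      · have h5 : (s ++ c :: List.flatMap h q) ++ [d] = u ++ [b] := by simpa using h4.2
        have := List.append_inj_right' h5 rfl
        simp at this
        exact absurd this.symm hb
      · refine ⟨s, t, ?_⟩
        have h5 := h4.2
        rw [List.concat_eq_append, ← List.append_assoc] at h5
        have := List.append_inj_left' h5 rfl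
        simpa using this

end Pool.Agent.Results.MP_2432f5_co.Const
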